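import Pool.Agent.Helper240.ZU.A1

set_option autoImplicit false

/-!
Project UM8 (helper97), job BLZ, part a: smooth functions of `log x`, Poisson's formula, sums against integrals.
-/

namespace Pool.Agent.Q92.UM.BLZ

open Filter Topology MeasureTheory Complex FourierTransform
open scoped ContDiff

noncomputable section

/-- the function `x ↦ G (log x)` on the positive axis, `0` elsewhere -/
def EE (G : ℝ → ℂ) (x : ℝ) : ℂ := if 0 < x then G (Real.log x) else 0

/-- `h(v) e^{w v}` -/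
def ex (h : ℝ → ℂ) (w : ℂ) (v : ℝ) : ℂ := h v * cexp (w * v)

/-- smooth, and zero on the left of `v₀` -/
structure Hv (h : ℝ → ℂ) (v₀ : ℝ) : Prop where
  smooth : ContDiff ℝ ∞ h
  zero : ∀ v < v₀, h v = 0

theorem Hv.deriv {h : ℝ → ℂ} {v₀ : ℝ} (hh : Hv h v₀) : Hv (deriv h) v₀ := by
  constructor
  · exact (contDiff_infty_iff_deriv.1 hh.smooth).2
  · intro v hv
    have h1 : h =ᶠ[𝓝 v] fun _ => (0 : ℂ) := by
      filter_upwards [Iio_mem_nhds hv] with y hy using hh.zero y hy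
    rw [h1.deriv_eq, deriv_const]

/-- the operator `h ↦ h' + w h` -/
def Dw (w : ℂ) (h : ℝ → ℂ) (v : ℝ) : ℂ := deriv h v + w * h v

theorem Hv.Dw {h : ℝ → ℂ} {v₀ : ℝ} (hh : Hv h v₀) (w : ℂ) : Hv (Dw w h) v₀ := by
  constructor
  · exact hh.deriv.smooth.add (contDiff_const.mul hh.smooth)
  · intro v hv
    unfold BLZ.Dw
    rw [hh.zero v hv, hh.deriv.zero v hv]
    simp

theorem EE_zero {h : ℝ → ℂ} {v₀ : ℝ} (hh : Hv h v₀) (w : ℂ) {x : ℝ} (hx : x < Real.exp v₀) :
    EE (ex h w) x = 0 := by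
  unfold EE ex
  split_ifs with h0
  · rw [hh.zero _ ((Real.log_lt_iff_lt_exp h0).2 hx), zero_mul]
  · rfl

theorem EE_deriv {h : ℝ → ℂ} {v₀ : ℝ} (hh : Hv h v₀) (w : ℂ) (x : ℝ) :
    HasDerivAt (EE (ex h w)) (EE (ex (Dw w h) (w - 1)) x) x := by
  by_cases hx : 0 < x
  · have e1 : EE (ex h w) =ᶠ[𝓝 x] fun y => ex h w (Real.log y) := by
      filter_upwards [Ioi_mem_nhds hx] with y hy
      unfold EE
      exact if_pos hy
    have hd : DifferentiableAt ℝ h (Real.log x) :=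
      (contDiff_infty_iff_deriv.1 hh.smooth).1 _
    have h1 : HasDerivAt (ex h w) (Dw w h (Real.log x) * cexp (w * Real.log x)) (Real.log x) := by
      have h2 : HasDerivAt (fun v : ℝ => cexp (w * v)) (cexp (w * Real.log x) * w) (Real.log x) := by
        have h3 : HasDerivAt (fun v : ℝ => w * (v : ℂ)) w (Real.log x) := by
          have := (hasDerivAt_id (Real.log x)).ofReal_comp.const_mul w
          simpa using this
        exact h3.cexp
      have h4 := hd.hasDerivAt.mul h2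
      refine h4.congr_deriv ?_
      unfold Dw
      ring
    have h2 := h1.scomp x (Real.hasDerivAt_log hx.ne')
    have h3 : EE (ex (Dw w h) (w - 1)) x = x⁻¹ • (Dw w h (Real.log x) * cexp (w * Real.log x)) := by
      unfold EE ex
      rw [if_pos hx, sub_mul, one_mul, Complex.exp_sub, ← Complex.ofReal_exp, Real.exp_log hx,
        Complex.real_smul]
      push_cast
      field_simp
    rw [h3]
    exact h2.congr_of_eventuallyEq e1
  · have hx' : x < Real.exp v₀ := lt_of_le_of_lt (not_lt.1 hx) (Real.exp_pos _)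
    have e1 : EE (ex h w) =ᶠ[𝓝 x] fun _ => (0 : ℂ) := by
      filter_upwards [Iio_mem_nhds hx'] with y hy using EE_zero hh w hy
    rw [EE_zero (hh.Dw w) _ hx']
    exact (hasDerivAt_const x (0 : ℂ)).congr_of_eventuallyEq e1

theorem EE_contDiff_nat (n : ℕ) : ∀ {h : ℝ → ℂ} {v₀ : ℝ} (_ : Hv h v₀) (w : ℂ),
    ContDiff ℝ n (EE (ex h w)) := by
  induction n with
  | zero =>
    intro h v₀ hh w
    rw [Nat.cast_zero, contDiff_zero]
    exact continuous_iff_continuousAt.2 fun x => (EE_deriv hh w x).continuousAt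
  | succ n ih =>
    intro h v₀ hh w
    push_cast
    rw [contDiff_succ_iff_deriv]
    refine ⟨fun x => (EE_deriv hh w x).differentiableAt, ?_, ?_⟩
    · intro h0
      exact absurd h0 (by exact_mod_cast WithTop.coe_ne_top)
    · have : deriv (EE (ex h w)) = EE (ex (Dw w h) (w - 1)) := by
        ext x
        exact (EE_deriv hh w x).deriv
      rw [this]
      exact ih (hh.Dw w) _

theorem EE_contDiff {h : ℝ → ℂ} {v₀ : ℝ} (hh : Hv h v₀) (w : ℂ) : ContDiff ℝ ∞ (EE (ex h w)) :=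
  contDiff_infty.2 fun n => EE_contDiff_nat n hh w

theorem EE_cont {h : ℝ → ℂ} {v₀ : ℝ} (hh : Hv h v₀) (w : ℂ) : Continuous (EE (ex h w)) :=
  (EE_contDiff hh w).continuous

/-- the iterates -/
def PP (w : ℂ) (h : ℝ → ℂ) : ℕ → ℝ → ℂ
  | 0 => h
  | j + 1 => Dw (w - j) (PP w h j)

theorem PP_Hv {h : ℝ → ℂ} {v₀ : ℝ} (hh : Hv h v₀) (w : ℂ) (j : ℕ) : Hv (PP w h j) v₀ := by
  induction j with
  | zero => exact hh
  | succ j ih => exact ih.Dw _

theorem EE_iter {h : ℝ → ℂ} {v₀ : ℝ} (hh : Hv h v₀) (w : ℂ) (j : ℕ) :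
    iteratedDeriv j (EE (ex h w)) = EE (ex (PP w h j) (w - j)) := by
  induction j with
  | zero => simp [iteratedDeriv_zero, PP]
  | succ j ih =>
    rw [iteratedDeriv_succ, ih]
    ext x
    rw [(EE_deriv (PP_Hv hh w j) (w - j) x).deriv]
    congr 2
    push_cast
    ring

theorem PP_bound {h : ℝ → ℂ} {v₀ : ℝ} (hh : Hv h v₀) (w : ℂ) (m : ℕ) (A : ℝ) 
    (hb : ∀ i ≤ m, ∀ v, ‖iteratedDeriv i h v‖ ≤ A) (j : ℕ) :
    ∀ i, i + j ≤ m → ∀ v, ‖iteratedDeriv i (PP w h j) v‖ ≤ A * (1 + ‖w‖ + m) ^ j := by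
  induction j with
  | zero =>
    intro i hi v
    rw [pow_zero, mul_one]
    exact hb i (by omega) v
  | succ j ih =>
    intro i hi v
    have hs := (PP_Hv hh w j).smooth
    have e1 : iteratedDeriv i (PP w h (j + 1)) v = iteratedDeriv (i + 1) (PP w h j) v +
        (w - j) * iteratedDeriv i (PP w h j) v := by
      have e2 : PP w h (j + 1) = fun v => deriv (PP w h j) v + (w - j) * PP w h j v := rfl
      have hs1 : ContDiffAt ℝ i (deriv (PP w h j)) v :=
        ((PP_Hv hh w j).deriv.smooth.contDiffAt).of_le (by exact_mod_cast le_top)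
      have hs2 : ContDiffAt ℝ i (PP w h j) v := hs.contDiffAt.of_le (by exact_mod_cast le_top)
      rw [e2, iteratedDeriv_fun_add hs1 (contDiffAt_const.mul hs2), iteratedDeriv_succ',
        iteratedDeriv_const_mul_field]
    rw [e1]
    have h1 := ih (i + 1) (by omega) v
    have h2 := ih i (by omega) v
    have h3 : ‖w - (j : ℂ)‖ ≤ ‖w‖ + m := by
      refine (norm_sub_le _ _).trans ?_
      rw [Complex.norm_natCast]
      have : (j : ℝ) ≤ m := by exact_mod_cast (by omega : j ≤ m)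
      linarith
    have hp : 0 ≤ A * (1 + ‖w‖ + m) ^ j := (norm_nonneg _).trans h2
    calc ‖iteratedDeriv (i + 1) (PP w h j) v + (w - j) * iteratedDeriv i (PP w h j) v‖
        ≤ ‖iteratedDeriv (i + 1) (PP w h j) v‖ + ‖(w - j) * iteratedDeriv i (PP w h j) v‖ :=
          norm_add_le _ _
      _ ≤ A * (1 + ‖w‖ + m) ^ j + (‖w‖ + m) * (A * (1 + ‖w‖ + m) ^ j) := by
          rw [norm_mul]
          exact add_le_add h1 (mul_le_mul h3 h2 (norm_nonneg _) (by positivity))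
      _ = A * (1 + ‖w‖ + m) ^ (j + 1) := by ring

/-- size of `EE (ex h w)` -/
theorem EE_le {h : ℝ → ℂ} {w : ℂ} {B : ℝ} (hB : ∀ v, ‖h v‖ ≤ B) {x : ℝ} (hx : 0 < x) :
    ‖EE (ex h w) x‖ ≤ B * x ^ w.re := by
  unfold EE ex
  rw [if_pos hx, norm_mul, Complex.norm_exp]
  have h1 : (w * (Real.log x : ℂ)).re = Real.log x * w.re := by
    rw [Complex.re_mul_ofReal]
    ring
  rw [h1, Real.rpow_def_of_pos hx]
  exact mul_le_mul_of_nonneg_right (hB _) (Real.exp_pos _).le

theorem EE_int {h : ℝ → ℂ} {v₀ : ℝ} (hh : Hv h v₀) {w : ℂ} (hw : w.re < -1) {B : ℝ}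
    (hB : ∀ v, ‖h v‖ ≤ B) :
    Integrable (EE (ex h w)) ∧
      ∫ x, ‖EE (ex h w) x‖ ≤ B * (Real.exp v₀ ^ (w.re + 1) / (-(w.re + 1))) := by
  have h0 : 0 ≤ B := (norm_nonneg _).trans (hB 0)
  have hi : IntegrableOn (fun x : ℝ => B * x ^ w.re) (Set.Ioi (Real.exp v₀)) :=
    (integrableOn_Ioi_rpow_of_lt hw (Real.exp_pos _)).const_mul B
  have hc := EE_cont hh w
  have h1 : IntegrableOn (EE (ex h w)) (Set.Ioi (Real.exp v₀)) := by
    refine hi.mono' hc.aestronglyMeasurable ?_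
    filter_upwards [ae_restrict_mem measurableSet_Ioi] with x hx
    exact EE_le hB ((Real.exp_pos _).trans hx)
  have h2 : IntegrableOn (EE (ex h w)) (Set.Iic (Real.exp v₀)) := by
    have h3 : IntegrableOn (fun _ : ℝ => (0 : ℂ)) (Set.Iic (Real.exp v₀)) := integrableOn_zero
    have h4 : IntegrableOn (fun _ : ℝ => (0 : ℂ)) (Set.Iio (Real.exp v₀)) := integrableOn_zero
    rw [integrableOn_Iic_iff_integrableOn_Iio]
    refine h4.congr_fun (fun x hx => ?_) measurableSet_Iio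
    exact (EE_zero hh w hx).symm
  have h3 : Integrable (EE (ex h w)) := by
    rw [← integrableOn_univ, ← Set.Iic_union_Ioi (a := Real.exp v₀)]
    exact h2.union h1
  refine ⟨h3, ?_⟩
  have h4 : ∫ x, ‖EE (ex h w) x‖ = ∫ x in Set.Ioi (Real.exp v₀), ‖EE (ex h w) x‖ := by
    rw [← intervalIntegral.integral_Iic_add_Ioi h2.norm h1.norm, integral_Iic_eq_integral_Iio]
    have : ∫ x in Set.Iio (Real.exp v₀), ‖EE (ex h w) x‖ = 0 := by
      rw [setIntegral_congr_fun measurableSet_Iio (g := fun _ => (0 : ℝ))]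
      · simp
      · intro x hx
        simp only
        rw [EE_zero hh w hx, norm_zero]
    rw [this, zero_add]
  rw [h4]
  have h5 : ∫ x in Set.Ioi (Real.exp v₀), ‖EE (ex h w) x‖ ≤
      ∫ x in Set.Ioi (Real.exp v₀), B * x ^ w.re := by
    refine setIntegral_mono_on h1.norm hi measurableSet_Ioi fun x hx => ?_
    exact EE_le hB ((Real.exp_pos _).trans hx)
  refine h5.trans (le_of_eq ?_)
  rw [integral_const_mul, integral_Ioi_rpow_of_lt hw (Real.exp_pos _)]
  rw [neg_div, div_neg]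

/-- Poisson's formula with the size of the error -/
theorem pois (m : ℕ) (hm : 2 ≤ m) : ∃ C : ℝ, 0 ≤ C ∧ ∀ f : ℝ → ℂ, ContDiff ℝ ∞ f → HasCompactSupport f →
    ‖∑' n : ℤ, f n - ∫ x, f x‖ ≤ C * ∫ x, ‖iteratedDeriv m f x‖ := by
  refine ⟨∑' n : ℤ, |(n : ℝ)| ^ (-(m : ℝ)), tsum_nonneg fun n => by positivity, ?_⟩
  intro f hf hc
  obtain ⟨g, hg⟩ : ∃ g : SchwartzMap ℝ ℂ, g = hc.toSchwartzMap hf := ⟨_, rfl⟩
  have hgf : (g : ℝ → ℂ) = f := by
    rw [hg]
    rfl
  have h1 := SchwartzMap.tsum_eq_tsum_fourier g 0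
  have hsum : Summable (fun j : ℤ => (𝓕 g) (j : ℝ)) :=
    summable_of_isBigO (Real.summable_abs_int_rpow one_lt_two)
      (((𝓕 g).isBigO_cocompact_rpow (-2)).comp_tendsto Int.tendsto_coe_cofinite)
  have hF : ∀ y : ℝ, (𝓕 g) y = 𝓕 f y := by
    intro y
    rw [SchwartzMap.fourier_coe, hgf]
  have h2 : ∑' n : ℤ, f n = ∑' n : ℤ, 𝓕 f (n : ℝ) := by
    calc ∑' n : ℤ, f n = ∑' n : ℤ, g (0 + n) := by
          congr 1
          ext n
          rw [hgf, zero_add]
      _ = _ := by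
          rw [h1]
          congr 1
          ext n
          have : ((0 : ℝ) : UnitAddCircle) = 0 := rfl
          rw [hF, this, fourier_eval_zero, mul_one]
  have h3 : ∀ n : ℕ, Integrable (iteratedDeriv n f) := by
    intro n
    have hcn : Continuous (iteratedDeriv n f) :=
      hf.continuous_iteratedDeriv n (by exact_mod_cast le_top)
    refine hcn.integrable_of_hasCompactSupport ?_
    have : HasCompactSupport (fun x => iteratedFDeriv ℝ n f x) := hc.iteratedFDeriv n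
    exact this.comp_left (g := fun L => L fun _ => (1 : ℝ)) rfl
  have h4 := Real.fourier_iteratedDeriv (f := f) (N := ((m : ℕ) : ℕ∞)) (n := m)
    (hf.of_le (by exact_mod_cast le_top)) (fun n _ => h3 n) le_rfl
  have h5 : ∀ n : ℤ, n ≠ 0 → ‖𝓕 f (n : ℝ)‖ ≤ |(n : ℝ)| ^ (-(m : ℝ)) * ∫ x, ‖iteratedDeriv m f x‖ := by
    intro n hn
    have hn' : (1 : ℝ) ≤ |(n : ℝ)| := by
      have : 1 ≤ |n| := Int.one_le_abs hn
      exact_mod_cast this
    have h6 : ‖𝓕 (iteratedDeriv m f) (n : ℝ)‖ ≤ ∫ x, ‖iteratedDeriv m f x‖ :=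
      VectorFourier.norm_fourierIntegral_le_integral_norm _ _ _ _ _
    rw [h4, norm_smul, norm_pow] at h6
    have h7 : |(n : ℝ)| ≤ ‖(2 * (Real.pi : ℂ) * I * (n : ℝ) : ℂ)‖ := by
      rw [norm_mul, norm_mul, norm_mul, Complex.norm_I, Complex.norm_real, Complex.norm_real,
        Real.norm_eq_abs, Real.norm_eq_abs, abs_of_pos Real.pi_pos]
      have : (1 : ℝ) ≤ 2 * Real.pi := by linarith [Real.pi_gt_three]
      simp only [Complex.norm_ofNat, mul_one]
      nlinarith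
    have h8 : |(n : ℝ)| ^ m * ‖𝓕 f (n : ℝ)‖ ≤ ∫ x, ‖iteratedDeriv m f x‖ :=
      (mul_le_mul_of_nonneg_right (pow_le_pow_left₀ (abs_nonneg _) h7 m) (norm_nonneg _)).trans h6
    rw [Real.rpow_neg (abs_nonneg _), Real.rpow_natCast]
    have hp : 0 < |(n : ℝ)| ^ m := by positivity
    rw [inv_mul_eq_div, le_div_iff₀ hp]
    linarith
  have hs2 : Summable (fun n : ℤ => 𝓕 f (n : ℝ)) := hsum.congr fun n => hF n
  have h6 : ∑' n : ℤ, 𝓕 f (n : ℝ) = 𝓕 f ((0 : ℤ) : ℝ) + ∑' n : ℤ, ite (n = 0) 0 (𝓕 f (n : ℝ)) :=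
    hs2.tsum_eq_add_tsum_ite 0
  have h7 : 𝓕 f ((0 : ℤ) : ℝ) = ∫ x, f x := by
    rw [Real.fourier_eq]
    simp
  rw [h2, h6, h7, add_sub_cancel_left]
  have hsm : Summable (fun n : ℤ => |(n : ℝ)| ^ (-(m : ℝ))) :=
    Real.summable_abs_int_rpow (by exact_mod_cast (by omega : 1 < m))
  rw [← tsum_mul_right]
  refine tsum_of_norm_bounded (hsm.mul_right _).hasSum fun n => ?_
  split_ifs with hn
  · rw [norm_zero]
    positivity
  · exact h5 n hn

/-- sums against integrals -/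
theorem sum_int {g g' : ℝ → ℂ} (hg : ∀ x, HasDerivAt g (g' x) x) (hc : Continuous g') (N : ℕ) :
    ‖∑ k ∈ Finset.Icc 1 N, g k - ∫ x in (0 : ℝ)..N, g x‖ ≤ ∫ x in (0 : ℝ)..N, ‖g' x‖ := by
  have hgc : Continuous g := continuous_iff_continuousAt.2 fun x => (hg x).continuousAt
  induction N with
  | zero => simp
  | succ N ih =>
    have e1 : (∫ x in (0 : ℝ)..((N + 1 : ℕ) : ℝ), g x) =
        (∫ x in (0 : ℝ)..N, g x) + ∫ x in (N : ℝ)..((N + 1 : ℕ) : ℝ), g x :=
      (intervalIntegral.integral_add_adjacent_intervals (hgc.intervalIntegrable _ _)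
        (hgc.intervalIntegrable _ _)).symm
    have e2 : (∫ x in (0 : ℝ)..((N + 1 : ℕ) : ℝ), ‖g' x‖) =
        (∫ x in (0 : ℝ)..N, ‖g' x‖) + ∫ x in (N : ℝ)..((N + 1 : ℕ) : ℝ), ‖g' x‖ :=
      (intervalIntegral.integral_add_adjacent_intervals (hc.norm.intervalIntegrable _ _)
        (hc.norm.intervalIntegrable _ _)).symm
    have e3 : (∫ x in (N : ℝ)..((N + 1 : ℕ) : ℝ), ((x - N : ℝ) : ℂ) * g' x) =
        g ((N + 1 : ℕ) : ℝ) - ∫ x in (N : ℝ)..((N + 1 : ℕ) : ℝ), g x := by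
      have h1 := intervalIntegral.integral_mul_deriv_eq_deriv_mul (a := (N : ℝ)) (b := ((N + 1 : ℕ) : ℝ))
        (u := fun x : ℝ => ((x - N : ℝ) : ℂ)) (v := g) (u' := fun _ => (1 : ℂ)) (v' := g')
        (fun x _ => by
          have := ((hasDerivAt_id x).sub_const (N : ℝ)).ofReal_comp
          simpa using this) (fun x _ => hg x)
        (continuous_const.intervalIntegrable _ _) (hc.intervalIntegrable _ _)
      rw [h1]
      push_cast
      simp
    have h2 : ‖∫ x in (N : ℝ)..((N + 1 : ℕ) : ℝ), ((x - N : ℝ) : ℂ) * g' x‖ ≤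
        ∫ x in (N : ℝ)..((N + 1 : ℕ) : ℝ), ‖g' x‖ := by
      have hle : (N : ℝ) ≤ ((N + 1 : ℕ) : ℝ) := by push_cast; linarith
      refine (intervalIntegral.norm_integral_le_integral_norm hle).trans ?_
      refine intervalIntegral.integral_mono_on hle ?_ (hc.norm.intervalIntegrable _ _) ?_
      · refine Continuous.intervalIntegrable ?_ _ _
        fun_prop
      · intro x hx
        rw [norm_mul, Complex.norm_real, Real.norm_eq_abs]
        have h3 : |x - N| ≤ 1 := by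
          rw [abs_le]
          have := hx.1
          have h4 := hx.2
          push_cast at h4
          constructor <;> linarith
        calc |x - N| * ‖g' x‖ ≤ 1 * ‖g' x‖ := mul_le_mul_of_nonneg_right h3 (norm_nonneg _)
          _ = _ := one_mul _
    rw [Finset.sum_Icc_succ_top (by omega), e1, e2]
    have e4 : ∑ k ∈ Finset.Icc 1 N, g k + g ((N + 1 : ℕ) : ℝ) - ((∫ x in (0 : ℝ)..N, g x) +
        ∫ x in (N : ℝ)..((N + 1 : ℕ) : ℝ), g x) =
        (∑ k ∈ Finset.Icc 1 N, g k - ∫ x in (0 : ℝ)..N, g x) +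
        (g ((N + 1 : ℕ) : ℝ) - ∫ x in (N : ℝ)..((N + 1 : ℕ) : ℝ), g x) := by ring
    rw [e4, ← e3]
    exact (norm_add_le _ _).trans (add_le_add ih h2)

end

end Pool.Agent.Q92.UM.BLZ
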